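import Pool.Agent.Helper74.NW.LZ

/-!
# A complete minor from two independent generators with central powers
-/

set_option autoImplicit false

namespace Pool.Agent.Helper74.NW

open Pool.Agent.Helper58.VF Pool.Agent.Helper52.AP3

universe u

theorem line_step {Γ : Type u} [Group Γ] {S : Set Γ} (s : Γ) (hs : s ∈ S) (h1 : s ≠ 1) (g : Γ)
    (X : Set Γ) (a : ℤ) (ha : g * s ^ a ∈ X) (hb : g * s ^ (a + 1) ∈ X) :
    Relation.ReflTransGen (Rel (cay S) X) (g * s ^ a) (g * s ^ (a + 1)) := by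
  refine Relation.ReflTransGen.single ⟨cay_adj.2 ⟨?_, Or.inl ?_⟩, ha, hb⟩
  · intro h
    have h2 := mul_left_cancel h
    rw [zpow_add, zpow_one] at h2
    exact h1 (mul_eq_left.1 h2.symm)
  · have : (g * s ^ a)⁻¹ * (g * s ^ (a + 1)) = s := by
      rw [zpow_add, zpow_one]; group
    rw [this]; exact hs

/-- A path along a line. -/
theorem line_path {Γ : Type u} [Group Γ] {S : Set Γ} (s : Γ) (hs : s ∈ S) (h1 : s ≠ 1) (g : Γ)
    (X : Set Γ) (a : ℤ) (n : ℕ) (hX : ∀ c : ℕ, c ≤ n → g * s ^ (a + c) ∈ X) :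
    Relation.ReflTransGen (Rel (cay S) X) (g * s ^ a) (g * s ^ (a + n)) := by
  induction n with
  | zero => simp only [Nat.cast_zero, add_zero]; exact Relation.ReflTransGen.refl
  | succ n ih =>
    refine (ih fun c hc => hX c (by omega)).trans ?_
    have h2 := line_step s hs h1 g X (a + n) (hX n (by omega))
      (by have := hX (n + 1) le_rfl; push_cast at this; rwa [← add_assoc] at this)
    push_cast
    rwa [← add_assoc]

/-- **Lemma K.** -/
theorem lemK {Γ : Type u} [Group Γ] {S : Set Γ} (hS : Subgroup.closure S = ⊤) (s t : Γ)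
    (hs : s ∈ S) (ht : t ∈ S) (m : ℕ) (hm : 0 < m) (hsc : ∀ g : Γ, s ^ m * g = g * s ^ m)
    (htc : ∀ g : Γ, t ^ m * g = g * t ^ m)
    (hind : ∀ a b : ℤ, s ^ a * t ^ b = 1 → a = 0 ∧ b = 0)
    (k : Γ) (hk : ∀ a b : ℤ, k ≠ s ^ a * t ^ b) :
    ∃ φ : ℕ → Set Γ,
    (∀ i, ((cay S).induce (φ i)).Connected) ∧
    (∀ i j, i ≠ j → Disjoint (φ i) (φ j)) ∧
    ∀ i j, i ≠ j → ∃ a ∈ φ i, ∃ b ∈ φ j, (cay S).Adj a b := by
  classical
  have hs1 : s ≠ 1 := by
    rintro rfl
    have := (hind 1 0 (by simp)).1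
    omega
  have ht1 : t ≠ 1 := by
    rintro rfl
    have := (hind 0 1 (by simp)).2
    omega
  have hsz : ∀ (i : ℤ) (g : Γ), (s ^ m) ^ i * g = g * (s ^ m) ^ i := fun i g =>
    ((Commute.zpow_left (show Commute (s ^ m) g from hsc g) i)).eq
  have htz : ∀ (i : ℤ) (g : Γ), (t ^ m) ^ i * g = g * (t ^ m) ^ i := fun i g =>
    ((Commute.zpow_left (show Commute (t ^ m) g from htc g) i)).eq
  -- `t ^ b = t ^ b' * s ^ a` only for `b = b'`
  have htt : ∀ b b' a : ℤ, t ^ b = t ^ b' * s ^ a → b = b' := by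
    intro b b' a h
    have h2 : s ^ a * t ^ (b' - b) = 1 := by
      have h3 : s ^ a = t ^ (-b') * t ^ b := by
        rw [h, zpow_neg, inv_mul_cancel_left]
      rw [h3, ← zpow_add, ← zpow_add]
      have : -b' + b + (b' - b) = 0 := by ring
      rw [this, zpow_zero]
    have := (hind _ _ h2).2
    omega
  obtain ⟨Fx, B, -, hB, hFxS, h1B, hkB, hLkB⟩ :=
    exists_patch (S := S) k (by rw [hS]; exact Subgroup.mem_top _)
  -- exponents
  have hbad1 : ∀ y : Γ, {c : ℤ | ∃ a : ℤ, y = t ^ c * s ^ a}.Finite := by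
    intro y
    refine Set.Subsingleton.finite ?_
    rintro c ⟨a, ha⟩ c' ⟨a', ha'⟩
    refine htt c c' (a' - a) ?_
    have h3 : t ^ c * s ^ a = t ^ c' * s ^ a' := ha.symm.trans ha'
    rw [sub_eq_add_neg, zpow_add, ← mul_assoc, ← h3, zpow_neg, mul_inv_cancel_right]
  obtain ⟨M', hM'0, hM'⟩ : ∃ M : ℕ, 0 < M ∧ ∀ c : ℤ, (M : ℤ) ≤ |c| → ∀ y ∈ B, ∀ a : ℤ,
      y ≠ t ^ c * s ^ a := by
    have hbad : (⋃ y ∈ B, {c : ℤ | ∃ a : ℤ, y = t ^ c * s ^ a}).Finite :=
      Set.Finite.biUnion hB fun y _ => hbad1 y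
    obtain ⟨M, hM⟩ := (hbad.image fun c : ℤ => c.natAbs).bddAbove
    refine ⟨M + 1, by omega, ?_⟩
    intro c hc y hy a he
    have h1 : c.natAbs ≤ M := hM ⟨c, Set.mem_biUnion hy ⟨a, he⟩, rfl⟩
    have h2 : |c| = (c.natAbs : ℤ) := Int.abs_eq_natAbs c
    rw [h2] at hc
    push_cast at hc
    omega
  -- `N i = m M' i`
  let N : ℕ → ℤ := fun i => (m * M' * i : ℕ)
  have hNc : ∀ (i : ℕ) (g : Γ), t ^ N i * g = g * t ^ N i := by
    intro i g
    have : t ^ N i = (t ^ m) ^ ((M' * i : ℕ) : ℤ) := by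
      rw [← zpow_natCast, ← zpow_mul]
      congr 1
      change ((m * M' * i : ℕ) : ℤ) = _
      push_cast
      ring
    rw [this]
    exact htz _ g
  have hNd : ∀ i j : ℕ, i ≠ j → (M' : ℤ) ≤ |N j - N i| := by
    intro i j hij
    have h1 : 1 ≤ |(j : ℤ) - i| := Int.one_le_abs (by omega)
    have h2 : N j - N i = (m : ℤ) * M' * (j - i) := by
      change ((m * M' * j : ℕ) : ℤ) - ((m * M' * i : ℕ) : ℤ) = _
      push_cast
      ring
    rw [h2, abs_mul, abs_mul, Nat.abs_cast, Nat.abs_cast]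
    have h3 : (1 : ℤ) ≤ m := by exact_mod_cast hm
    have h4 : (1 : ℤ) ≤ M' := by exact_mod_cast hM'0
    nlinarith [mul_le_mul h3 h1 (by norm_num) (by positivity)]
  have hNi : ∀ i j : ℕ, i ≠ j → N i ≠ N j := by
    intro i j hij he
    have := hNd i j hij
    rw [he, sub_self, abs_zero] at this
    omega
  refine combine (s ^ m) ?_ (fun i => Set.range fun a : ℤ => t ^ N i * s ^ a)
    (fun i => t ^ N i) ?_ ?_ ?_ ?_ ?_
  · intro n hn h
    have h2 : s ^ ((m * n : ℕ) : ℤ) * t ^ (0 : ℤ) = 1 := by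
      rw [zpow_natCast, pow_mul, h, zpow_zero, mul_one]
    have h3 := (hind _ _ h2).1
    have h4 : 0 < m * n := Nat.mul_pos hm hn
    omega
  · intro i
    exact ⟨0, by simp⟩
  · intro i
    have key : ∀ a : ℕ, Relation.ReflTransGen
        (Rel (cay S) (Set.range fun a : ℤ => t ^ N i * s ^ a)) (t ^ N i) (t ^ N i * s ^ (a : ℤ)) := by
      intro a
      have := line_path s hs hs1 (t ^ N i) (Set.range fun a : ℤ => t ^ N i * s ^ a) 0 a
        (fun c _ => ⟨_, rfl⟩)
      simpa using this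
    have key' : ∀ a : ℕ, Relation.ReflTransGen
        (Rel (cay S) (Set.range fun a : ℤ => t ^ N i * s ^ a)) (t ^ N i)
          (t ^ N i * s ^ (-(a : ℤ))) := by
      intro a
      have := line_path s hs hs1 (t ^ N i) (Set.range fun a : ℤ => t ^ N i * s ^ a) (-(a : ℤ)) a
        (fun c _ => ⟨_, rfl⟩)
      rw [neg_add_cancel, zpow_zero, mul_one] at this
      exact Rel.symm this
    rintro _ ⟨a, rfl⟩
    rcases Int.eq_nat_or_neg a with ⟨n, rfl | rfl⟩
    · exact key n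
    · exact key' n
  · intro i n y
    have e : ∀ a : ℤ, (s ^ m) ^ n * (t ^ N i * s ^ a) = t ^ N i * s ^ ((m * n : ℕ) + a) := by
      intro a
      have h1 := hsz n (t ^ N i)
      rw [zpow_natCast] at h1
      rw [← mul_assoc, h1, mul_assoc, ← pow_mul, ← zpow_natCast, ← zpow_add]
    constructor
    · rintro ⟨a, ha⟩
      refine ⟨a - (m * n : ℕ), ?_⟩
      have h2 := e (a - (m * n : ℕ))
      rw [add_sub_cancel] at h2
      exact mul_left_cancel (h2.trans ha)
    · rintro ⟨a, rfl⟩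
      exact ⟨(m * n : ℕ) + a, (e a).symm⟩
  · intro i j hij
    rw [Set.disjoint_left]
    rintro y ⟨a, rfl⟩ ⟨b, hb⟩
    refine hNi i j hij (htt (N i) (N j) (b - a) ?_)
    have h3 : t ^ N j * s ^ b = t ^ N i * s ^ a := hb
    rw [sub_eq_add_neg, zpow_add, ← mul_assoc, h3, zpow_neg, mul_inv_cancel_right]
  · -- paths, first for `i < j`
    have hlt : ∀ i j : ℕ, i < j → ∃ E : Set Γ, E.Finite ∧
        Relation.ReflTransGen (Rel (cay S) E) (t ^ N i) (t ^ N j) ∧
        ∀ l, l ≠ i → l ≠ j → Disjoint E (Set.range fun a : ℤ => t ^ N l * s ^ a) := by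
      intro i j hij
      have p1 := lk_rel (X := (fun y => t ^ N i * y) '' B) hFxS hLkB (t ^ N i)
        (fun y hy => ⟨y, hy, rfl⟩) h1B hkB
      have p3 := lk_rel (X := (fun y => t ^ N j * y) '' B) hFxS hLkB (t ^ N j)
        (fun y hy => ⟨y, hy, rfl⟩) hkB h1B
      obtain ⟨n, hn⟩ : ∃ n : ℕ, N i + n = N j := by
        refine ⟨m * M' * j - m * M' * i, ?_⟩
        change ((m * M' * i : ℕ) : ℤ) + ((m * M' * j - m * M' * i : ℕ) : ℤ) =
          ((m * M' * j : ℕ) : ℤ)
        have : m * M' * i ≤ m * M' * j := Nat.mul_le_mul_left _ hij.le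
        omega
      have p2 := line_path t ht ht1 k ((fun c : ℕ => k * t ^ (N i + c)) '' (Set.Iic n)) (N i) n
        (fun c hc => ⟨c, hc, rfl⟩)
      rw [hn, ← hNc i k, ← hNc j k] at p2
      rw [mul_one] at p1 p3
      refine ⟨(fun y => t ^ N i * y) '' B ∪ (fun c : ℕ => k * t ^ (N i + c)) '' (Set.Iic n) ∪
        (fun y => t ^ N j * y) '' B, ((hB.image _).union ((Set.finite_Iic n).image _)).union
          (hB.image _), ?_, ?_⟩
      · exact ((Rel.mono (fun y hy => Or.inl (Or.inl hy)) p1).trans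
          (Rel.mono (fun y hy => Or.inl (Or.inr hy)) p2)).trans
          (Rel.mono (fun y hy => Or.inr hy) p3)
      · intro l hli hlj
        have hBl : ∀ r, l ≠ r → ∀ y ∈ B, ∀ a : ℤ, t ^ N l * s ^ a ≠ t ^ N r * y := by
          intro r hlr y hy a he
          refine hM' (N l - N r) (hNd r l (Ne.symm hlr)) y hy a ?_
          have h3 : y = (t ^ N r)⁻¹ * (t ^ N l * s ^ a) := by
            rw [he, inv_mul_cancel_left]
          rw [h3, ← zpow_neg, ← mul_assoc, ← zpow_add]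
          congr 2
          ring
        rw [Set.disjoint_left]
        rintro y ((⟨y', hy', rfl⟩ | ⟨c, _, rfl⟩) | ⟨y', hy', rfl⟩) ⟨a, ha⟩
        · exact hBl i hli y' hy' a ha
        · refine hk a (N l - (N i + c)) ?_
          have h3 : t ^ N l * s ^ a = k * t ^ (N i + c) := ha
          rw [hNc l] at h3
          rw [sub_eq_add_neg, zpow_add, ← mul_assoc, h3, zpow_neg, mul_inv_cancel_right]
        · exact hBl j hlj y' hy' a ha
    intro i j hij
    rcases Nat.lt_or_gt_of_ne hij with h | h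
    · exact hlt i j h
    · obtain ⟨E, h1, h2, h3⟩ := hlt j i h
      exact ⟨E, h1, Rel.symm h2, fun l hl hl' => h3 l hl' hl⟩

end Pool.Agent.Helper74.NW
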