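import Pool.Agent.Helper74.NW.LZ

/-!
# A complete minor from a central element: the lemma
-/

set_option autoImplicit false

namespace Pool.Agent.Helper74.NW

open Pool.Agent.Helper58.VF Pool.Agent.Helper52.AP3

universe u

/-- **Lemma Z'.** -/
theorem lemZ {Γ : Type u} [Group Γ] {S : Set Γ} (hS : Subgroup.closure S = ⊤) (z w : Γ)
    (hzc : ∀ g : Γ, z * g = g * z) (hz : ∀ n : ℕ, 0 < n → z ^ n ≠ 1)
    (hw : ∀ n : ℕ, 0 < n → w ^ n ∉ Subgroup.zpowers z)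
    (hidx : ¬ (Subgroup.closure ({z, w} : Set Γ)).FiniteIndex) :
    ∃ φ : ℕ → Set Γ,
    (∀ i, ((cay S).induce (φ i)).Connected) ∧
    (∀ i j, i ≠ j → Disjoint (φ i) (φ j)) ∧
    ∀ i j, i ≠ j → ∃ a ∈ φ i, ∃ b ∈ φ j, (cay S).Adj a b := by
  classical
  set D := Subgroup.closure ({z, w} : Set Γ) with hD
  have hzD : z ∈ D := Subgroup.subset_closure (by simp)
  have hwD : w ∈ D := Subgroup.subset_closure (by simp)
  have hzi : ∀ (i : ℤ) (g : Γ), z ^ i * g = g * z ^ i := fun i g =>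
    ((Commute.zpow_left (show Commute z g from hzc g) i)).eq
  obtain ⟨F, P, -, hP, hFS, h1P, hTP, hLk⟩ := exists_patch_set (S := S) hS
    (T := ({z, w} : Set Γ)) (Set.toFinite _)
  -- the element `x`
  obtain ⟨x, hx⟩ : ∃ x : Γ, ∀ d ∈ D, ∀ p ∈ P, ∀ q ∈ P, x ≠ d * p * q⁻¹ := by
    by_contra hcon
    push Not at hcon
    apply hidx
    have : Finite (Γ ⧸ D) := by
      have hfin : (Set.image2 (fun p q : Γ => ((q * p⁻¹ : Γ) : Γ ⧸ D)) P P).Finite :=
        Set.Finite.image2 _ hP hP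
      refine Set.finite_univ_iff.1 (hfin.subset ?_)
      rintro y -
      obtain ⟨g, rfl⟩ := QuotientGroup.mk_surjective y
      obtain ⟨d, hd, p, hp, q, hq, he⟩ := hcon g⁻¹
      refine ⟨p, hp, q, hq, ?_⟩
      change ((q * p⁻¹ : Γ) : Γ ⧸ D) = (g : Γ ⧸ D)
      rw [QuotientGroup.eq]
      have e : g = q * p⁻¹ * d⁻¹ := by
        rw [← inv_inv g, he]; group
      rw [e]
      have e2 : (q * p⁻¹)⁻¹ * (q * p⁻¹ * d⁻¹) = d⁻¹ := by group
      rw [e2]
      exact D.inv_mem hd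
    exact Subgroup.finiteIndex_of_finite_quotient
  obtain ⟨Fx, B, -, hB, hFxS, h1B, hxB, hLkB⟩ :=
    exists_patch (S := S) x (by rw [hS]; exact Subgroup.mem_top _)
  -- the bad differences
  have hwz : ∀ c : ℤ, w ^ c ∈ Subgroup.zpowers z → c = 0 := by
    intro c hc
    by_contra hne
    rcases Int.lt_or_gt_of_ne hne with h | h
    · refine hw c.natAbs (by omega) ?_
      have : w ^ c.natAbs = (w ^ c)⁻¹ := by
        rw [← zpow_natCast, ← zpow_neg]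
        congr 1
        omega
      rw [this]
      exact (Subgroup.zpowers z).inv_mem hc
    · refine hw c.natAbs (by omega) ?_
      have : w ^ c.natAbs = w ^ c := by
        rw [← zpow_natCast]
        congr 1
        omega
      rw [this]
      exact hc
  have hbad1 : ∀ a : Γ, {c : ℤ | ∃ i : ℤ, w ^ c = a * z ^ i}.Finite := by
    intro a
    refine Set.Subsingleton.finite ?_
    rintro c ⟨i, hi⟩ c' ⟨i', hi'⟩
    have h1 : w ^ (c - c') ∈ Subgroup.zpowers z := by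
      refine ⟨i - i', ?_⟩
      change z ^ (i - i') = w ^ (c - c')
      rw [zpow_sub w, hi, hi', ← hzi i a, ← hzi i' a, mul_inv_rev, mul_assoc,
        mul_inv_cancel_left, zpow_sub]
    have := hwz _ h1
    omega
  have hA : (Set.image2 (fun b q : Γ => b * q⁻¹ * x⁻¹) B P ∪
      Set.image2 (fun p q : Γ => x * p * q⁻¹ * x⁻¹) P P).Finite :=
    (Set.Finite.image2 _ hB hP).union (Set.Finite.image2 _ hP hP)
  have hbad : (⋃ a ∈ (Set.image2 (fun b q : Γ => b * q⁻¹ * x⁻¹) B P ∪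
      Set.image2 (fun p q : Γ => x * p * q⁻¹ * x⁻¹) P P),
      {c : ℤ | ∃ i : ℤ, w ^ c = a * z ^ i}).Finite :=
    Set.Finite.biUnion hA fun a _ => hbad1 a
  obtain ⟨M, hM0, hM⟩ : ∃ M : ℕ, 0 < M ∧ ∀ c : ℤ, (M : ℤ) ≤ |c| →
      ∀ a ∈ (Set.image2 (fun b q : Γ => b * q⁻¹ * x⁻¹) B P ∪
      Set.image2 (fun p q : Γ => x * p * q⁻¹ * x⁻¹) P P), ∀ i : ℤ, w ^ c ≠ a * z ^ i := by
    obtain ⟨m, hm⟩ := (hbad.image fun c : ℤ => c.natAbs).bddAbove
    refine ⟨m + 1, by omega, ?_⟩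
    intro c hc a ha i he
    have h1 : c.natAbs ≤ m := hm ⟨c, Set.mem_biUnion ha ⟨i, he⟩, rfl⟩
    have h2 : |c| = (c.natAbs : ℤ) := Int.abs_eq_natAbs c
    rw [h2] at hc
    push_cast at hc
    omega
  -- the sets
  let g : ℕ → Γ := fun k => w ^ (k * M)
  have hgD : ∀ k, g k ∈ D := fun k => D.pow_mem hwD _
  have hdiff : ∀ k l : ℕ, k ≠ l → ∃ c : ℤ, (M : ℤ) ≤ |c| ∧ (g k)⁻¹ * g l = w ^ c := by
    intro k l hkl
    refine ⟨(l : ℤ) * M - k * M, ?_, ?_⟩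
    · rw [← sub_mul, abs_mul, Nat.abs_cast]
      have h1 : 1 ≤ |(l : ℤ) - k| := Int.one_le_abs (by omega)
      nlinarith
    · change (w ^ (k * M))⁻¹ * w ^ (l * M) = _
      rw [← zpow_natCast, ← zpow_natCast, ← zpow_neg, ← zpow_add]
      congr 1
      push_cast
      ring
  have hzp : Subgroup.closure ({z} : Set Γ) = Subgroup.zpowers z :=
    (Subgroup.zpowers_eq_closure z).symm
  have hC := L_conn (S := S) hFS hLk h1P D ({z, w} : Set Γ) hD.symm hTP 1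
  have hCmem : ∀ k, g k ∈ L D P 1 := fun k => ⟨g k, hgD k, 1, h1P, by simp⟩
  refine combine z hz (fun k => L (Subgroup.zpowers z) P (g k * x)) (fun k => g k * x) ?_ ?_ ?_ ?_ ?_
  · intro i
    exact ⟨1, (Subgroup.zpowers z).one_mem, 1, h1P, by simp⟩
  · intro i
    exact L_conn (S := S) hFS hLk h1P _ ({z} : Set Γ) hzp
      ((Set.singleton_subset_iff.2 (by simp : z ∈ ({z, w} : Set Γ))).trans hTP) _
  · intro i n y
    constructor
    · rintro ⟨d, ⟨j, rfl⟩, p, hp, he⟩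
      refine ⟨z ^ (j - (n : ℤ)), ⟨_, rfl⟩, p, hp, ?_⟩
      have h1 : z ^ (n : ℤ) * y = g i * x * z ^ j * p := by rw [zpow_natCast]; exact he
      have h2 : y = z ^ (-(n : ℤ)) * (g i * x * z ^ j * p) := by
        rw [← h1, zpow_neg, inv_mul_cancel_left]
      rw [h2, ← mul_assoc, ← mul_assoc (z ^ (-(n : ℤ))) (g i * x), hzi, sub_eq_add_neg, add_comm,
        zpow_add, ← mul_assoc]
    · rintro ⟨d, ⟨j, rfl⟩, p, hp, rfl⟩
      refine ⟨z ^ ((n : ℤ) + j), ⟨_, rfl⟩, p, hp, ?_⟩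
      change z ^ n * (g i * x * z ^ j * p) = _
      rw [← zpow_natCast, ← mul_assoc, ← mul_assoc (z ^ (n : ℤ)) (g i * x), hzi, zpow_add,
        ← mul_assoc]
  · intro i j hij
    rw [Set.disjoint_left]
    rintro y ⟨d, ⟨a, rfl⟩, p, hp, h1⟩ ⟨d', ⟨b, rfl⟩, q, hq, h2⟩
    obtain ⟨c, hc, he⟩ := hdiff i j hij
    refine hM c hc (x * p * q⁻¹ * x⁻¹) (Or.inr ⟨p, hp, q, hq, rfl⟩) (a - b) ?_
    -- `g i x z^a p = g j x z^b q`
    have h3 : g i * x * z ^ a * p = g j * x * z ^ b * q := h1.symm.trans h2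
    have h4 : g i * (x * (z ^ a * p)) = g j * (x * (z ^ b * q)) := by
      simpa only [mul_assoc] using h3
    rw [← he]
    have h5 : (g i)⁻¹ * g j = x * (z ^ a * p) * (x * (z ^ b * q))⁻¹ := by
      rw [eq_mul_inv_iff_mul_eq, mul_assoc, ← h4, inv_mul_cancel_left]
    rw [h5, mul_inv_rev, mul_inv_rev, ← zpow_neg]
    calc x * (z ^ a * p) * (q⁻¹ * z ^ (-b) * x⁻¹)
        = x * (z ^ a * p) * (z ^ (-b) * q⁻¹ * x⁻¹) := by rw [hzi (-b) q⁻¹]
      _ = x * (p * z ^ a) * (z ^ (-b) * q⁻¹ * x⁻¹) := by rw [hzi a p]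
      _ = x * p * (z ^ (a - b) * (q⁻¹ * x⁻¹)) := by
          rw [sub_eq_add_neg, zpow_add]; group
      _ = x * p * (q⁻¹ * x⁻¹ * z ^ (a - b)) := by rw [hzi (a - b) (q⁻¹ * x⁻¹)]
      _ = x * p * q⁻¹ * x⁻¹ * z ^ (a - b) := by simp only [mul_assoc]
  · intro i j hij
    have p1 : Relation.ReflTransGen (Rel (cay S) ((fun y => g i * y) '' B)) (g i * x) (g i * 1) :=
      lk_rel (X := (fun y => g i * y) '' B) hFxS hLkB (g i) (fun y hy => ⟨y, hy, rfl⟩) hxB h1B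
    have p3 : Relation.ReflTransGen (Rel (cay S) ((fun y => g j * y) '' B)) (g j * 1) (g j * x) :=
      lk_rel (X := (fun y => g j * y) '' B) hFxS hLkB (g j) (fun y hy => ⟨y, hy, rfl⟩) h1B hxB
    have p2 : Relation.ReflTransGen (Rel (cay S) (L D P 1)) (g i) (g j) :=
      (Rel.symm (hC _ (hCmem i))).trans (hC _ (hCmem j))
    obtain ⟨E, hE1, hE2, -, hE3⟩ := Rel.finite p2 (hCmem i)
    rw [mul_one] at p1 p3
    refine ⟨(fun y => g i * y) '' B ∪ E ∪ (fun y => g j * y) '' B,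
      ((hB.image _).union hE1).union (hB.image _), ?_, ?_⟩
    · exact ((Rel.mono (fun y hy => Or.inl (Or.inl hy)) p1).trans
        (Rel.mono (fun y hy => Or.inl (Or.inr hy)) hE3)).trans
        (Rel.mono (fun y hy => Or.inr hy) p3)
    · intro k hki hkj
      have hBk : ∀ l, k ≠ l → ∀ y ∈ B, g l * y ∉ L (Subgroup.zpowers z) P (g k * x) := by
        rintro l hkl y hy ⟨d, ⟨b, rfl⟩, q, hq, h2⟩
        obtain ⟨c, hc, he⟩ := hdiff l k (Ne.symm hkl)
        refine hM c hc (y * q⁻¹ * x⁻¹) (Or.inl ⟨y, hy, q, hq, rfl⟩) (-b) ?_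
        have h4 : g l * y = g k * (x * (z ^ b * q)) := by
          simpa only [mul_assoc] using h2
        rw [← he]
        have h5 : (g l)⁻¹ * g k = y * (x * (z ^ b * q))⁻¹ := by
          rw [eq_mul_inv_iff_mul_eq, mul_assoc, ← h4, inv_mul_cancel_left]
        rw [h5, mul_inv_rev, mul_inv_rev, ← zpow_neg]
        calc y * (q⁻¹ * z ^ (-b) * x⁻¹) = y * (z ^ (-b) * q⁻¹ * x⁻¹) := by rw [hzi (-b) q⁻¹]
          _ = y * (z ^ (-b) * (q⁻¹ * x⁻¹)) := by simp only [mul_assoc]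
          _ = y * (q⁻¹ * x⁻¹ * z ^ (-b)) := by rw [hzi (-b) (q⁻¹ * x⁻¹)]
          _ = y * q⁻¹ * x⁻¹ * z ^ (-b) := by simp only [mul_assoc]
      rw [Set.disjoint_left]
      rintro y ((⟨y', hy', rfl⟩ | hy) | ⟨y', hy', rfl⟩)
      · exact hBk i hki y' hy'
      · obtain ⟨d, hd, q, hq, h1⟩ := hE2 hy
        rintro ⟨d', ⟨b, rfl⟩, p, hp, h2⟩
        refine hx ((g k)⁻¹ * d * z ^ (-b)) (D.mul_mem (D.mul_mem (D.inv_mem (hgD k)) hd)
          (D.zpow_mem hzD _)) q hq p hp ?_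
        have h3 : g k * x * z ^ b * p = 1 * d * q := h2.symm.trans h1
        have h4 : x * z ^ b = (g k)⁻¹ * d * q * p⁻¹ := by
          rw [eq_mul_inv_iff_mul_eq, mul_assoc (g k)⁻¹, eq_inv_mul_iff_mul_eq, ← one_mul d, ← h3]
          simp only [mul_assoc]
        have h5 : x = (g k)⁻¹ * d * q * p⁻¹ * z ^ (-b) := by
          rw [← h4, zpow_neg, mul_inv_cancel_right]
        calc x = (g k)⁻¹ * d * q * p⁻¹ * z ^ (-b) := h5
          _ = (g k)⁻¹ * d * (q * p⁻¹ * z ^ (-b)) := by simp only [mul_assoc]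
          _ = (g k)⁻¹ * d * (z ^ (-b) * (q * p⁻¹)) := by rw [hzi (-b) (q * p⁻¹)]
          _ = (g k)⁻¹ * d * z ^ (-b) * q * p⁻¹ := by simp only [mul_assoc]
      · exact hBk j hkj y' hy'

end Pool.Agent.Helper74.NW
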