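import Pool.Agent.Helper61.NW.Goals
import Pool.Agent.Helper74.NW.LZM
import Pool.Agent.Helper74.NW.LK

/-!
# `ZedStmt` from Lemma Z, and Lemma K in the form of the goals
-/

set_option autoImplicit false

namespace Pool.Agent.Helper74.NW

open Pool.Agent.Helper52.Wq2 Pool.Agent.Helper61.NW

universe u

/-- From a complete minor in the form of `lemZ` to `KN`. -/
theorem kn_of {Γ : Type u} [Group Γ] {S : Set Γ}
    (h : ∃ φ : ℕ → Set Γ,
      (∀ i, ((Pool.Agent.Helper58.VF.cay S).induce (φ i)).Connected) ∧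
      (∀ i j, i ≠ j → Disjoint (φ i) (φ j)) ∧
      ∀ i j, i ≠ j → ∃ a ∈ φ i, ∃ b ∈ φ j, (Pool.Agent.Helper58.VF.cay S).Adj a b) :
    KN (Pool.Agent.Helper52.Wq2.cay S) := by
  obtain ⟨φ, h1, h2, h3⟩ := h
  have e : Pool.Agent.Helper58.VF.cay S = Pool.Agent.Helper52.Wq2.cay S := rfl
  rw [e] at h1 h3
  refine ⟨φ, fun v => (conn_iff _ _).1 (h1 v), ?_, ?_⟩
  · intro v w x hv hw
    by_contra hne
    exact Set.disjoint_left.1 (h2 v w hne) hv hw
  · intro v w hvw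
    exact h3 v w hvw.ne

/-- **ZED.** -/
theorem zed : Pool.Agent.Helper61.NW.ZedStmt.{u} := by
  intro Γ _ S hS _ hB
  obtain ⟨z, w, hz, hzw, hidx⟩ := hB
  apply kn_of
  refine lemZ hS.1 z w (fun g => (hz g).symm) ?_ ?_ hidx
  · intro n hn h
    have := hzw 0 (n : ℤ) (by rw [zpow_zero, one_mul, zpow_natCast, h])
    omega
  · intro n hn h
    obtain ⟨j, hj⟩ := Subgroup.mem_zpowers_iff.1 h
    have := hzw (n : ℤ) (-j) (by rw [zpow_natCast, ← hj, zpow_neg, mul_inv_cancel])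
    omega

/-- **Lemma K** in the form of the goals: `s, t ∈ S` with `s ^ m`, `t ^ m` central, independent, and an
element which is not of the form `s ^ a * t ^ b`. -/
theorem kn_lemK {Γ : Type u} [Group Γ] {S : Set Γ} (hS : IsGen S) (s t : Γ)
    (hs : s ∈ S) (ht : t ∈ S) (m : ℕ) (hm : 0 < m) (hsc : ∀ g : Γ, s ^ m * g = g * s ^ m)
    (htc : ∀ g : Γ, t ^ m * g = g * t ^ m)
    (hind : ∀ a b : ℤ, s ^ a * t ^ b = 1 → a = 0 ∧ b = 0)
    (k : Γ) (hk : ∀ a b : ℤ, k ≠ s ^ a * t ^ b) : KN (Pool.Agent.Helper52.Wq2.cay S) :=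
  kn_of (lemK hS.1 s t hs ht m hm hsc htc hind k hk)

end Pool.Agent.Helper74.NW
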