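import Pool.Agent.Helper74.DIH.D1
import Pool.Agent.Helper43.DIH.D2
import Pool.Agent.Helper2.DIH.D3
import Pool.Agent.Helper2.DIH.D4

set_option autoImplicit false

namespace Pool.Agent.Helper74.NW

universe u

/-- **DIH.** The dihedral type gives line systems. -/
theorem dih : Pool.Agent.Helper61.NW.DihStmt.{u} :=
  Pool.Agent.Helper74.DIH.d5 Pool.Agent.Helper74.DIH.d1 Pool.Agent.Helper43.DIH.d2
    Pool.Agent.Helper2.DIH.d3 Pool.Agent.Helper2.DIH.d4

end Pool.Agent.Helper74.NW
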