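import Pool.Agent.Helper52.VF.AP3

/-!
# A complete minor from a central element

If `z` is central of infinite order, no power of `w` with positive exponent is a power of `z`, and
`⟨z, w⟩` has infinite index then every Cayley graph has a complete minor on `ℕ`.
-/

set_option autoImplicit false

namespace Pool.Agent.Helper74.NW

open Pool.Agent.Helper58.VF Pool.Agent.Helper52.AP3

universe u

/-- Adjacent inside `X`. -/
def Rel {W : Type u} (G : SimpleGraph W) (X : Set W) (a b : W) : Prop :=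
  G.Adj a b ∧ a ∈ X ∧ b ∈ X

theorem Rel.symm {W : Type u} {G : SimpleGraph W} {X : Set W} {x y : W}
    (h : Relation.ReflTransGen (Rel G X) x y) : Relation.ReflTransGen (Rel G X) y x := by
  induction h with
  | refl => exact Relation.ReflTransGen.refl
  | tail _ h1 ih => exact Relation.ReflTransGen.head ⟨h1.1.symm, h1.2.2, h1.2.1⟩ ih

theorem Rel.mono {W : Type u} {G : SimpleGraph W} {X Y : Set W} (hXY : X ⊆ Y) {x y : W}
    (h : Relation.ReflTransGen (Rel G X) x y) : Relation.ReflTransGen (Rel G Y) x y :=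
  Relation.ReflTransGen.mono (fun _ _ h1 => ⟨h1.1, hXY h1.2.1, hXY h1.2.2⟩) _ _ h

theorem conn_of_rel {W : Type u} (G : SimpleGraph W) (X : Set W) (x₀ : W) (h₀ : x₀ ∈ X)
    (h : ∀ x ∈ X, Relation.ReflTransGen (Rel G X) x₀ x) : (G.induce X).Connected := by
  have key : ∀ x, Relation.ReflTransGen (Rel G X) x₀ x → ∀ hx : x ∈ X,
      (G.induce X).Reachable ⟨x₀, h₀⟩ ⟨x, hx⟩ := by
    intro x hx
    induction hx with
    | refl => intro _; exact SimpleGraph.Reachable.refl _
    | tail _ h1 ih =>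
      intro hc
      refine (ih h1.2.1).trans (SimpleGraph.Adj.reachable ?_)
      exact h1.1
  have : Nonempty X := ⟨⟨x₀, h₀⟩⟩
  refine SimpleGraph.Connected.mk ?_
  rintro ⟨x, hx⟩ ⟨y, hy⟩
  exact (key x (h x hx) hx).symm.trans (key y (h y hy) hy)

/-- A finite part of a path. -/
theorem Rel.finite {W : Type u} {G : SimpleGraph W} {X : Set W} {x y : W}
    (h : Relation.ReflTransGen (Rel G X) x y) (hx : x ∈ X) :
    ∃ E : Set W, E.Finite ∧ E ⊆ X ∧ y ∈ E ∧ Relation.ReflTransGen (Rel G E) x y := by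
  induction h with
  | refl => exact ⟨{x}, Set.finite_singleton _, by simpa using hx, rfl,
      Relation.ReflTransGen.refl⟩
  | @tail b c _ h1 ih =>
    obtain ⟨E, h2, h3, h4, h5⟩ := ih
    exact ⟨insert c E, h2.insert c, Set.insert_subset h1.2.2 h3, Set.mem_insert _ _,
      (Rel.mono (Set.subset_insert _ _) h5).tail
        ⟨h1.1, Set.mem_insert_of_mem _ h4, Set.mem_insert _ _⟩⟩

/-- Cutting a path from `X` to `Y`. -/
theorem cut {W : Type u} {G : SimpleGraph W} {X Y E : Set W} (hXY : Disjoint X Y) {a b : W}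
    (ha : a ∈ X) (hb : b ∈ Y) (h : Relation.ReflTransGen (Rel G E) a b) :
    ∃ M : Set W, M ⊆ E ∧ Disjoint M Y ∧
      (∀ x ∈ M, Relation.ReflTransGen (Rel G (X ∪ M)) a x) ∧
      ∃ p ∈ X ∪ M, ∃ q ∈ Y, G.Adj p q := by
  have key : ∀ y, Relation.ReflTransGen (Rel G E) a y →
      (∃ M : Set W, M ⊆ E ∧ Disjoint M Y ∧
        (∀ x ∈ M, Relation.ReflTransGen (Rel G (X ∪ M)) a x) ∧
        ∃ p ∈ X ∪ M, ∃ q ∈ Y, G.Adj p q) ∨
      (∃ M : Set W, M ⊆ E ∧ Disjoint M Y ∧
        (∀ x ∈ M, Relation.ReflTransGen (Rel G (X ∪ M)) a x) ∧ y ∈ X ∪ M ∧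
        Relation.ReflTransGen (Rel G (X ∪ M)) a y) := by
    intro y hy
    induction hy with
    | refl =>
      exact Or.inr ⟨∅, Set.empty_subset _, Set.empty_disjoint _, by simp, Or.inl ha,
        Relation.ReflTransGen.refl⟩
    | @tail y y' _ h1 ih =>
      rcases ih with ih | ⟨M, h2, h3, h4, h5, h6⟩
      · exact Or.inl ih
      · by_cases hy' : y' ∈ Y
        · exact Or.inl ⟨M, h2, h3, h4, y, h5, y', hy', h1.1⟩
        · have hsub : X ∪ M ⊆ X ∪ insert y' M :=
            Set.union_subset_union_right _ (Set.subset_insert _ _)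
          have h7 : Relation.ReflTransGen (Rel G (X ∪ insert y' M)) a y' :=
            (Rel.mono hsub h6).tail ⟨h1.1, hsub h5, Or.inr (Set.mem_insert _ _)⟩
          refine Or.inr ⟨insert y' M, Set.insert_subset h1.2.2 h2, ?_, ?_,
            Or.inr (Set.mem_insert _ _), h7⟩
          · rw [Set.disjoint_left]
            rintro x (rfl | hx)
            · exact hy'
            · exact Set.disjoint_left.1 h3 hx
          · rintro x (rfl | hx)
            · exact h7
            · exact Rel.mono hsub (h4 x hx)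
  rcases key b h with h1 | ⟨M, h2, h3, h4, h5, h6⟩
  · exact h1
  · exfalso
    rcases h5 with h5 | h5
    · exact Set.disjoint_left.1 hXY h5 hb
    · exact Set.disjoint_left.1 h3 h5 hb

/-- The set `g D P`. -/
def L {Γ : Type u} [Group Γ] (D : Subgroup Γ) (P : Set Γ) (g : Γ) : Set Γ :=
  {x | ∃ d ∈ D, ∃ y ∈ P, x = g * d * y}

theorem lk_rel {Γ : Type u} [Group Γ] {S F P X : Set Γ} (hF : F ⊆ S) (h : Lk F P) (g : Γ)
    (hX : ∀ y ∈ P, g * y ∈ X) {x y : Γ} (hx : x ∈ P) (hy : y ∈ P) :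
    Relation.ReflTransGen (Rel (cay S) X) (g * x) (g * y) := by
  have h1 := h x hx y hy
  clear hy
  have : Relation.ReflTransGen (Rel (cay S) X) (g * x) (g * y) ∧ y ∈ P := by
    induction h1 with
    | refl => exact ⟨Relation.ReflTransGen.refl, hx⟩
    | tail _ h2 ih =>
      exact ⟨ih.1.tail ⟨cay_mul g (cay_le hF h2.1), hX _ ih.2, hX _ h2.2⟩, h2.2⟩
  exact this.1

/-- `g D P` is connected. -/
theorem L_conn {Γ : Type u} [Group Γ] {S F P : Set Γ} (hF : F ⊆ S) (h : Lk F P) (h1 : (1 : Γ) ∈ P)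
    (D : Subgroup Γ) (T : Set Γ) (hT : Subgroup.closure T = D) (hTP : T ⊆ P) (g : Γ) :
    ∀ x ∈ L D P g, Relation.ReflTransGen (Rel (cay S) (L D P g)) g x := by
  have hX : ∀ d ∈ D, ∀ y ∈ P, g * d * y ∈ L D P g := fun d hd y hy => ⟨d, hd, y, hy, rfl⟩
  have step : ∀ d ∈ D, ∀ y ∈ P,
      Relation.ReflTransGen (Rel (cay S) (L D P g)) (g * d) (g * d * y) := by
    intro d hd y hy
    have := lk_rel (S := S) hF h (g * d) (X := L D P g) (fun y hy => hX d hd y hy) h1 hy
    rwa [mul_one] at this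
  have key : ∀ d ∈ Subgroup.closure T, ∀ e ∈ D,
      Relation.ReflTransGen (Rel (cay S) (L D P g)) (g * e) (g * (e * d)) := by
    intro d hd
    induction hd using Subgroup.closure_induction with
    | mem t ht =>
      intro e he
      rw [← mul_assoc]
      exact step e he t (hTP ht)
    | one => intro e _; rw [mul_one]
    | mul x y hx _ ihx ihy =>
      intro e he
      have h2 := ihy (e * x) (D.mul_mem he (hT ▸ hx))
      rw [mul_assoc e x y] at h2
      exact (ihx e he).trans h2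
    | inv x hx ih =>
      intro e he
      have := ih (e * x⁻¹) (D.mul_mem he (D.inv_mem (hT ▸ hx)))
      rw [inv_mul_cancel_right] at this
      exact Rel.symm this
  rintro x ⟨d, hd, y, hy, rfl⟩
  have h2 := key d (by rw [hT]; exact hd) 1 D.one_mem
  rw [mul_one, one_mul] at h2
  exact h2.trans (step d hd y hy)

/-- Greedy translates. -/
theorem greedy {Γ : Type u} [Group Γ] (z : Γ) (hz : ∀ n : ℕ, 0 < n → z ^ n ≠ 1)
    (E : ℕ → Set Γ) (hE : ∀ n, (E n).Finite) :
    ∃ N : ℕ → ℕ, ∀ m n, m ≠ n → ∀ x ∈ E m, ∀ y ∈ E n, z ^ N m * x ≠ z ^ N n * y := by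
  classical
  have hinj : Function.Injective fun k : ℕ => z ^ k := by
    intro a b hab
    rcases Nat.lt_trichotomy a b with h | h | h
    · exact absurd (by
        have : z ^ (b - a) = 1 := by
          have h2 : z ^ a * z ^ (b - a) = z ^ a * 1 := by
            rw [← pow_add, mul_one, Nat.add_sub_cancel' h.le]; exact hab.symm
          exact mul_left_cancel h2
        exact this) (hz (b - a) (by omega))
    · exact h
    · exact absurd (by
        have : z ^ (a - b) = 1 := by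
          have h2 : z ^ b * z ^ (a - b) = z ^ b * 1 := by
            rw [← pow_add, mul_one, Nat.add_sub_cancel' h.le]; exact hab
          exact mul_left_cancel h2
        exact this) (hz (a - b) (by omega))
  have hone : ∀ (n : ℕ) (U : Finset Γ), ∃ N : ℕ, ∀ x ∈ E n, z ^ N * x ∉ U := by
    intro n U
    have hbad : {N : ℕ | ∃ x ∈ E n, z ^ N * x ∈ U}.Finite := by
      have h1 : (⋃ x ∈ E n, ⋃ y ∈ (U : Set Γ), {N : ℕ | z ^ N * x = y}).Finite := by
        refine Set.Finite.biUnion (hE n) fun x _ => Set.Finite.biUnion U.finite_toSet fun y _ => ?_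
        refine Set.Subsingleton.finite ?_
        intro a ha b hb
        exact hinj (mul_right_cancel ((show z ^ a * x = y from ha).trans
          (show z ^ b * x = y from hb).symm))
      refine h1.subset ?_
      rintro N ⟨x, hx, hy⟩
      exact Set.mem_biUnion hx (Set.mem_biUnion (Finset.mem_coe.2 hy) rfl)
    obtain ⟨N, hN⟩ := hbad.infinite_compl.nonempty
    exact ⟨N, fun x hx hU => hN ⟨x, hx, hU⟩⟩
  choose c hc using hone
  let nx : ℕ → Finset Γ → Finset Γ := fun n U => U ∪ (hE n).toFinset.image fun x => z ^ c n U * x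
  let seq : ℕ → Finset Γ := fun n => Nat.rec ∅ (fun n U => nx n U) n
  have hs : ∀ n, seq (n + 1) = nx n (seq n) := fun _ => rfl
  have hmono : ∀ m n, m ≤ n → seq m ⊆ seq n := by
    intro m n hmn
    induction n, hmn using Nat.le_induction with
    | base => exact Finset.Subset.refl _
    | succ n _ ih => rw [hs]; exact ih.trans Finset.subset_union_left
  have hin : ∀ m, ∀ x ∈ E m, z ^ c m (seq m) * x ∈ seq (m + 1) := by
    intro m x hx
    rw [hs]
    exact Finset.mem_union_right _ (Finset.mem_image.2 ⟨x, (hE m).mem_toFinset.2 hx, rfl⟩)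
  have hlt : ∀ m n, m < n → ∀ x ∈ E m, ∀ y ∈ E n,
      z ^ c m (seq m) * x ≠ z ^ c n (seq n) * y := by
    intro m n hmn x hx y hy he
    exact hc n (seq n) y hy (he ▸ hmono _ _ hmn (hin m x hx))
  refine ⟨fun n => c n (seq n), fun m n hmn x hx y hy => ?_⟩
  rcases Nat.lt_or_gt_of_ne hmn with h | h
  · exact hlt m n h x hx y hy
  · exact (hlt n m h y hy x hx).symm

/-- The combinatorial part: `T i` disjoint connected `z`-invariant sets, joined by finite paths. -/
theorem combine {Γ : Type u} [Group Γ] {S : Set Γ} (z : Γ) (hz : ∀ n : ℕ, 0 < n → z ^ n ≠ 1)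
    (T : ℕ → Set Γ) (x : ℕ → Γ) (hx : ∀ i, x i ∈ T i)
    (hconn : ∀ i, ∀ y ∈ T i, Relation.ReflTransGen (Rel (cay S) (T i)) (x i) y)
    (hinv : ∀ i, ∀ (n : ℕ) (y : Γ), z ^ n * y ∈ T i ↔ y ∈ T i)
    (hdis : ∀ i j, i ≠ j → Disjoint (T i) (T j))
    (hpath : ∀ i j, i ≠ j → ∃ E : Set Γ, E.Finite ∧
      Relation.ReflTransGen (Rel (cay S) E) (x i) (x j) ∧
      ∀ k, k ≠ i → k ≠ j → Disjoint E (T k)) :
    ∃ φ : ℕ → Set Γ,
    (∀ i, ((cay S).induce (φ i)).Connected) ∧
    (∀ i j, i ≠ j → Disjoint (φ i) (φ j)) ∧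
    ∀ i j, i ≠ j → ∃ a ∈ φ i, ∃ b ∈ φ j, (cay S).Adj a b := by
  classical
  have hpath' : ∀ n : ℕ, ∃ E : Set Γ, E.Finite ∧ (n.unpair.1 ≠ n.unpair.2 →
      Relation.ReflTransGen (Rel (cay S) E) (x n.unpair.1) (x n.unpair.2) ∧
      ∀ k, k ≠ n.unpair.1 → k ≠ n.unpair.2 → Disjoint E (T k)) := by
    intro n
    by_cases h : n.unpair.1 = n.unpair.2
    · exact ⟨∅, Set.finite_empty, fun h' => absurd h h'⟩
    · obtain ⟨E, h1, h2, h3⟩ := hpath _ _ h
      exact ⟨E, h1, fun _ => ⟨h2, h3⟩⟩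
  choose E hE1 hE2 using hpath'
  obtain ⟨N, hN⟩ := greedy z hz E hE1
  -- the translated paths, cut
  have hM : ∀ i j : ℕ, ∃ M : Set Γ, (∀ y ∈ M, ∃ y' ∈ E (Nat.pair i j),
      y = z ^ N (Nat.pair i j) * y') ∧ (∀ k, k ≠ i → Disjoint M (T k)) ∧
      (∀ y ∈ M, Relation.ReflTransGen (Rel (cay S) (T i ∪ M)) (x i) y) ∧
      (i ≠ j → ∃ p ∈ T i ∪ M, ∃ q ∈ T j, (cay S).Adj p q) := by
    intro i j
    by_cases hij : i = j
    · exact ⟨∅, by simp, fun _ _ => Set.empty_disjoint _, by simp, fun h => absurd hij h⟩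
    · set n := Nat.pair i j with hn
      have h0 := hE2 n (by rw [hn, Nat.unpair_pair]; exact hij)
      rw [hn, Nat.unpair_pair] at h0
      obtain ⟨h1, h2⟩ := h0
      have h3 : Relation.ReflTransGen (Rel (cay S) ((fun y => z ^ N n * y) '' E n))
          (z ^ N n * x i) (z ^ N n * x j) := by
        refine Relation.ReflTransGen.lift (fun y => z ^ N n * y) ?_ _ _ h1
        rintro a b ⟨k1, k2, k3⟩
        exact ⟨cay_mul _ k1, ⟨a, k2, rfl⟩, ⟨b, k3, rfl⟩⟩
      obtain ⟨M, m1, m2, m3, m4⟩ := cut (hdis i j hij) ((hinv i _ _).2 (hx i))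
        ((hinv j _ _).2 (hx j)) h3
      refine ⟨M, ?_, ?_, ?_, fun _ => m4⟩
      · intro y hy
        obtain ⟨y', hy', rfl⟩ := m1 hy
        exact ⟨y', hy', rfl⟩
      · intro k hk
        by_cases hkj : k = j
        · rw [hkj]; exact m2
        · rw [Set.disjoint_left]
          intro y hy hyk
          obtain ⟨y', hy', rfl⟩ := m1 hy
          exact Set.disjoint_left.1 (h2 k hk hkj) hy' ((hinv k _ _).1 hyk)
      · intro y hy
        exact (Rel.mono Set.subset_union_left (hconn i _ ((hinv i (N n) _).2 (hx i)))).trans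
          (m3 y hy)
  choose M m1 m2 m3 m4 using hM
  refine ⟨fun i => T i ∪ ⋃ j, M i j, ?_, ?_, ?_⟩
  · intro i
    refine conn_of_rel _ _ (x i) (Or.inl (hx i)) ?_
    rintro y (hy | hy)
    · exact Rel.mono Set.subset_union_left (hconn i y hy)
    · obtain ⟨j, hj⟩ := Set.mem_iUnion.1 hy
      exact Rel.mono (Set.union_subset_union_right _ (Set.subset_iUnion _ _)) (m3 i j y hj)
  · intro i j hij
    rw [Set.disjoint_left]
    rintro y (hy | hy) (hy' | hy')
    · exact Set.disjoint_left.1 (hdis i j hij) hy hy'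
    · obtain ⟨l, hl⟩ := Set.mem_iUnion.1 hy'
      exact Set.disjoint_left.1 (m2 j l i hij) hl hy
    · obtain ⟨l, hl⟩ := Set.mem_iUnion.1 hy
      exact Set.disjoint_left.1 (m2 i l j (Ne.symm hij)) hl hy'
    · obtain ⟨l, hl⟩ := Set.mem_iUnion.1 hy
      obtain ⟨l', hl'⟩ := Set.mem_iUnion.1 hy'
      obtain ⟨a, ha, e1⟩ := m1 i l y hl
      obtain ⟨b, hb, e2⟩ := m1 j l' y hl'
      refine hN (Nat.pair i l) (Nat.pair j l') ?_ a ha b hb (e1.symm.trans e2)
      intro h
      exact hij (Nat.pair_eq_pair.1 h).1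
  · intro i j hij
    obtain ⟨p, hp, q, hq, hpq⟩ := m4 i j hij
    refine ⟨p, ?_, q, Or.inl hq, hpq⟩
    rcases hp with hp | hp
    · exact Or.inl hp
    · exact Or.inr (Set.mem_iUnion.2 ⟨j, hp⟩)

end Pool.Agent.Helper74.NW
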